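import Pool.Agent.R482.ST.Dens

/-!
# Sets with a given logarithmic saving, and the values of starshaped functions
-/

set_option autoImplicit false

open Filter Topology MeasureTheory

namespace Pool.Agent.L7h2.SS

open Pool.Agent.R482.ST (Star star_density)

/-- a set of natural numbers with at most `X / (log X) ^ W` members up to `X` -/
def ThinW (W : ℕ) (S : Set ℕ) : Prop :=
  ∃ X₀ : ℕ, ∀ X : ℕ, X₀ ≤ X → ({t : ℕ | t ∈ S ∧ t ≤ X}.ncard : ℝ) ≤ X / Real.log X ^ W

lemma count_bound {W : ℕ} {S : Set ℕ} (hS : ThinW W S) : ∃ K : ℝ, 0 < K ∧ ∀ X : ℝ, 1 ≤ X →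
    {t : ℕ | t ∈ S ∧ (t : ℝ) ≤ X}.Finite ∧
      ({t : ℕ | t ∈ S ∧ (t : ℝ) ≤ X}.ncard : ℝ) ≤ K / (1 + Real.log X) ^ W * X := by
  obtain ⟨X₀, hX₀⟩ := hS
  obtain ⟨X₁, hX₁⟩ : ∃ X₁, X₁ = X₀ + 3 := ⟨_, rfl⟩
  have hl1 : 0 ≤ Real.log (X₁ + 1 : ℝ) := Real.log_nonneg (by have : (0 : ℝ) ≤ X₁ := Nat.cast_nonneg _; linarith)
  refine ⟨3 ^ W + 2 * (1 + Real.log (X₁ + 1)) ^ W, by positivity, fun X hX => ?_⟩
  have hX0 : 0 < X := by linarith
  have hlX : 0 ≤ Real.log X := Real.log_nonneg hX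
  obtain ⟨m, hm⟩ : ∃ m, m = ⌊X⌋₊ := ⟨_, rfl⟩
  have hm1 : (m : ℝ) ≤ X := by rw [hm]; exact Nat.floor_le hX0.le
  have hm2 : X < m + 1 := by rw [hm]; exact Nat.lt_floor_add_one X
  have heq : {t : ℕ | t ∈ S ∧ (t : ℝ) ≤ X} = {t : ℕ | t ∈ S ∧ t ≤ m} := by
    ext t
    simp only [Set.mem_ofPred_eq, hm, Nat.le_floor_iff hX0.le]
  have hfin : {t : ℕ | t ∈ S ∧ t ≤ m}.Finite := (Set.finite_Iic m).subset fun t ht => ht.2
  rw [heq]
  refine ⟨hfin, ?_⟩
  have hW0 : 0 < (1 + Real.log X) ^ W := by positivity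
  rcases lt_or_ge m X₁ with hlt | hge
  · have h1 : ({t : ℕ | t ∈ S ∧ t ≤ m}.ncard : ℝ) ≤ m + 1 := by
      have h2 : {t : ℕ | t ∈ S ∧ t ≤ m}.ncard ≤ m + 1 := by
        calc {t : ℕ | t ∈ S ∧ t ≤ m}.ncard ≤ (Set.Iic m).ncard := Set.ncard_le_ncard (fun t ht => ht.2) (Set.finite_Iic m)
          _ = m + 1 := by
              rw [← Finset.coe_Iic, Set.ncard_coe_finset, Nat.card_Iic]
      exact_mod_cast h2
    have h3 : Real.log X ≤ Real.log (X₁ + 1) := by
      apply Real.log_le_log hX0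
      have : (m : ℝ) ≤ X₁ := by exact_mod_cast hlt.le
      linarith
    have h4 : (1 + Real.log X) ^ W ≤ (1 + Real.log (X₁ + 1)) ^ W := by gcongr
    calc ({t : ℕ | t ∈ S ∧ t ≤ m}.ncard : ℝ) ≤ m + 1 := h1
      _ ≤ 2 * X := by linarith
      _ = 2 * (1 + Real.log X) ^ W / (1 + Real.log X) ^ W * X := by field_simp
      _ ≤ (3 ^ W + 2 * (1 + Real.log (X₁ + 1)) ^ W) / (1 + Real.log X) ^ W * X := by
          gcongr
          have : (0 : ℝ) < 3 ^ W := by positivity
          linarith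
  · have h1 := hX₀ m (by omega)
    have hm3 : 3 ≤ m := by omega
    have hm3r : (3 : ℝ) ≤ m := by exact_mod_cast hm3
    have hlm : 1 ≤ Real.log m := by
      rw [Real.le_log_iff_exp_le (by linarith)]
      exact Real.exp_one_lt_d9.le.trans (by linarith)
    have h2 : 1 + Real.log X ≤ 3 * Real.log m := by
      have h3 : Real.log X ≤ Real.log (2 * m) := Real.log_le_log hX0 (by linarith)
      rw [Real.log_mul (by norm_num) (by linarith)] at h3
      have h4 := Real.log_two_lt_d9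
      linarith
    have h5 : (1 + Real.log X) ^ W ≤ 3 ^ W * Real.log m ^ W := by
      rw [← mul_pow]
      gcongr
    calc ({t : ℕ | t ∈ S ∧ t ≤ m}.ncard : ℝ) ≤ m / Real.log m ^ W := h1
      _ ≤ X / Real.log m ^ W := by gcongr
      _ ≤ 3 ^ W / (1 + Real.log X) ^ W * X := by
          rw [div_mul_eq_mul_div, div_le_div_iff₀ (by positivity) hW0]
          calc X * (1 + Real.log X) ^ W ≤ X * (3 ^ W * Real.log m ^ W) := by gcongr
            _ = _ := by ring
      _ ≤ _ := by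
          gcongr
          have : (0 : ℝ) < 2 * (1 + Real.log (X₁ + 1)) ^ W := by positivity
          linarith

/-- **Theorem.** Let `f n` be starshaped functions on `(a, ∞)` with `n ^ δ ≤ log (f n x) ≤ n ^ D` for large `n`. If `S` has at
most `X / (log X) ^ W` members up to `X`, and `A + |D| + 2 ≤ δ W`, then for almost every `x > a` no member of `S` is within
`n ^ A` of `f n x`, for all large `n`. -/
theorem star_thinW {W : ℕ} {S : Set ℕ} (hS : ThinW W S) {δ D A a : ℝ} (hδ : 0 < δ) (hW : A + |D| + 2 ≤ δ * W) (ha : 0 ≤ a)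
    {f : ℕ → ℝ → ℝ} (hf : Star a f)
    (hlog : ∀ x : ℝ, a < x → ∀ᶠ n : ℕ in atTop, (n : ℝ) ^ δ ≤ Real.log (f n x) ∧ Real.log (f n x) ≤ (n : ℝ) ^ D) :
    ∀ᵐ x : ℝ, a < x → ∀ᶠ n : ℕ in atTop, ∀ t ∈ S, (n : ℝ) ^ A < |(t : ℝ) - f n x| := by
  obtain ⟨K, hK, hcount⟩ := count_bound hS
  have hexp : ∀ x : ℝ, a < x → ∀ᶠ n : ℕ in atTop, Real.exp ((n : ℝ) ^ δ) ≤ f n x := by
    intro x hx
    filter_upwards [hlog x hx] with n hn
    exact (Real.le_log_iff_exp_le (hf n x x hx le_rfl).1).1 hn.1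
  have hnδ : Tendsto (fun n : ℕ => (n : ℝ) ^ δ) atTop atTop := (tendsto_rpow_atTop hδ).comp tendsto_natCast_atTop_atTop
  obtain ⟨N, hN0, hN⟩ := star_density S (fun t : ℕ => (t : ℝ)) ha hf
    (fun x hx => tendsto_atTop_mono' _ (hexp x hx) (Real.tendsto_exp_atTop.comp hnδ))
    (D := fun X => K / (1 + Real.log X) ^ W) (fun X hX => by
      have := Real.log_nonneg hX
      positivity) (fun X Y hX hXY => by
      have h1 := Real.log_nonneg hX
      have h2 : Real.log X ≤ Real.log Y := Real.log_le_log (by linarith) hXY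
      change K / (1 + Real.log Y) ^ W ≤ K / (1 + Real.log X) ^ W
      gcongr) (L := fun n => (n : ℝ) ^ A) (fun n => Real.rpow_nonneg (Nat.cast_nonneg _) _) (fun x hx => by
      have h1 : Tendsto (fun n : ℕ => Real.exp ((n : ℝ) ^ δ) / ((n : ℝ) ^ δ) ^ (A / δ)) atTop atTop :=
        (tendsto_exp_div_rpow_atTop (A / δ)).comp hnδ
      filter_upwards [h1.eventually_ge_atTop 2, hexp x hx, eventually_ge_atTop 1] with n h2 h3 h4
      have hn0 : (0 : ℝ) < n := by exact_mod_cast h4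
      rw [← Real.rpow_mul hn0.le, mul_div_cancel₀ _ hδ.ne', le_div_iff₀ (by positivity)] at h2
      exact h2.trans h3) (fun x y hx hxy => by
      have hs : Summable fun n : ℕ => 2 * K * (n : ℝ) ^ (A + |D| - δ * W) :=
        (Real.summable_nat_rpow.2 (by linarith)).mul_left _
      refine Summable.of_norm_bounded_eventually_nat hs ?_
      filter_upwards [hlog x hx, hlog y (hx.trans_le hxy), eventually_ge_atTop 1, hexp x hx] with n h1 h2 h3 h4
      have hn1 : (1 : ℝ) ≤ n := by exact_mod_cast h3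
      have hn0 : (0 : ℝ) < n := by linarith
      have hfx : 0 < f n x := (hf n x x hx le_rfl).1
      have hfy : 0 < f n y := (hf n y y (hx.trans_le hxy) le_rfl).1
      have hmono : f n x ≤ f n y := by
        have hx0 : 0 < x := lt_of_le_of_lt ha hx
        have hy0 : 0 < y := lt_of_lt_of_le hx0 hxy
        obtain ⟨p1, p2⟩ := hf n x y hx hxy
        rw [div_le_div_iff₀ hx0 hy0] at p2
        by_contra hcon
        rw [not_le] at hcon
        nlinarith
      have hnd : 0 < (n : ℝ) ^ δ := by positivity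
      have hl2 := Real.log_two_lt_d9
      have e1 : Real.log (f n x / 2) = Real.log (f n x) - Real.log 2 := Real.log_div hfx.ne' two_ne_zero
      have e2 : Real.log (f n y / f n x) = Real.log (f n y) - Real.log (f n x) := Real.log_div hfy.ne' hfx.ne'
      have h5 : (n : ℝ) ^ δ ≤ 1 + Real.log (f n x / 2) := by rw [e1]; linarith [h1.1]
      have h6 : 0 ≤ Real.log (f n y / f n x) := by
        rw [e2]
        linarith [Real.log_le_log hfx hmono]
      have h7 : Real.log (f n y / f n x) ≤ (n : ℝ) ^ |D| := by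
        rw [e2]
        have h8 : (n : ℝ) ^ D ≤ (n : ℝ) ^ |D| := Real.rpow_le_rpow_of_exponent_le hn1 (le_abs_self D)
        linarith [h2.2, h1.1]
      have h9 : (1 : ℝ) ≤ (n : ℝ) ^ |D| := Real.one_le_rpow hn1 (abs_nonneg D)
      have h10 : 0 < (n : ℝ) ^ A := by positivity
      have h11 : 0 ≤ K / (1 + Real.log (f n x / 2)) ^ W := by
        have : 0 < 1 + Real.log (f n x / 2) := by linarith
        positivity
      rw [Real.norm_of_nonneg (by positivity)]
      calc K / (1 + Real.log (f n x / 2)) ^ W * (n : ℝ) ^ A * (1 + Real.log (f n y / f n x))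
          ≤ K / ((n : ℝ) ^ δ) ^ W * (n : ℝ) ^ A * (2 * (n : ℝ) ^ |D|) := by
            gcongr
            linarith
        _ = 2 * K * (n : ℝ) ^ (A + |D| - δ * W) := by
            rw [← Real.rpow_natCast ((n : ℝ) ^ δ) W, ← Real.rpow_mul hn0.le, Real.rpow_sub hn0, Real.rpow_add hn0]
            ring) hcount
  have h1 : ∀ᵐ x : ℝ, x ∉ N := measure_eq_zero_iff_ae_notMem.1 hN0
  filter_upwards [h1] with x hx hax
  obtain ⟨n₀, hn₀⟩ := hN x hax hx
  filter_upwards [eventually_ge_atTop n₀] with n hn t ht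
  exact hn₀ n hn t ht

end Pool.Agent.L7h2.SS
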